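import Pool.Agent.Q66.DS.Basic

/-! # Project DS, job AVG -/

set_option autoImplicit false

open MeasureTheory Set Metric
open Pool.Agent.Q66.DS

namespace Pool.Agent.Q211.DS

theorem t_AVG (h : S_L2) : S_AVG := by
  intro α C L hα0 hα hC
  obtain ⟨C', hC', hL2⟩ := h α C L hα hC
  refine ⟨3 * C' * 3 ^ (1 - α), by have := Real.rpow_pos_of_pos (three_pos (α := ℝ)) (1 - α); positivity, ?_⟩
  intro μ hμ ξ hξ
  have hprob := hμ.1
  have hcont : Continuous fun ζ => ‖ch μ ζ‖ ^ 2 := (continuous_ch μ).norm.pow 2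
  have hE : 0 < Real.exp (-1) := Real.exp_pos _
  have h3 : Real.exp 1 < 3 := by have := Real.exp_one_lt_d9; linarith
  have hE3 : Real.exp (-1) * Real.exp 1 = 1 := by rw [← Real.exp_add]; simp
  have hle : Real.exp (-1) * ξ ≤ Real.exp 1 * ξ :=
    mul_le_mul_of_nonneg_right (Real.exp_le_exp.2 (by norm_num)) hξ.le
  have e1 : ∫ u in (-1 : ℝ)..1, ‖ch μ (Real.exp u * ξ)‖ ^ 2 =
      ∫ ζ in (Real.exp (-1) * ξ)..(Real.exp 1 * ξ), ‖ch μ ζ‖ ^ 2 / ζ := by
    have h1 := intervalIntegral.integral_comp_mul_deriv' (a := -1) (b := 1)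
      (f := fun u => Real.exp u * ξ) (f' := fun u => Real.exp u * ξ)
      (g := fun ζ => ‖ch μ ζ‖ ^ 2 / ζ)
      (fun x _ => (Real.hasDerivAt_exp x).mul_const ξ)
      (Continuous.continuousOn (by fun_prop)) ?_
    · rw [← h1]
      refine intervalIntegral.integral_congr fun u _ => ?_
      have : Real.exp u * ξ ≠ 0 := (mul_pos (Real.exp_pos u) hξ).ne'
      change _ = ‖ch μ (Real.exp u * ξ)‖ ^ 2 / (Real.exp u * ξ) * (Real.exp u * ξ)
      rw [div_mul_cancel₀ _ this]
    · refine hcont.continuousOn.div continuousOn_id fun x hx => ?_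
      obtain ⟨u, _, rfl⟩ := hx
      exact (mul_pos (Real.exp_pos u) hξ).ne'
  rw [e1]
  have hpos : ∀ ζ ∈ Icc (Real.exp (-1) * ξ) (Real.exp 1 * ξ), 0 < ζ := fun ζ hζ =>
    lt_of_lt_of_le (mul_pos hE hξ) hζ.1
  calc ∫ ζ in (Real.exp (-1) * ξ)..(Real.exp 1 * ξ), ‖ch μ ζ‖ ^ 2 / ζ
      ≤ ∫ ζ in (Real.exp (-1) * ξ)..(Real.exp 1 * ξ), (3 / ξ) * ‖ch μ ζ‖ ^ 2 := by
        refine intervalIntegral.integral_mono_on hle ?_ ?_ fun ζ hζ => ?_
        · refine ContinuousOn.intervalIntegrable ?_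
          refine hcont.continuousOn.div continuousOn_id fun x hx => ?_
          rw [uIcc_of_le hle] at hx
          exact (hpos x hx).ne'
        · exact (continuous_const.mul hcont).intervalIntegrable _ _
        · have h5 : 0 ≤ ‖ch μ ζ‖ ^ 2 := by positivity
          rw [div_eq_mul_inv, mul_comm]
          refine mul_le_mul_of_nonneg_right ?_ h5
          rw [← one_div, div_le_div_iff₀ (hpos ζ hζ) hξ]
          have h6 := hζ.1
          have h7 : ξ = Real.exp 1 * (Real.exp (-1) * ξ) := by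
            rw [← mul_assoc, mul_comm (Real.exp 1), hE3, one_mul]
          have h8 : Real.exp 1 * (Real.exp (-1) * ξ) ≤ Real.exp 1 * ζ :=
            mul_le_mul_of_nonneg_left h6 (Real.exp_pos 1).le
          have h9 : Real.exp 1 * ζ ≤ 3 * ζ := mul_le_mul_of_nonneg_right h3.le (hpos ζ hζ).le
          linarith
    _ = 3 / ξ * ∫ ζ in (Real.exp (-1) * ξ)..(Real.exp 1 * ξ), ‖ch μ ζ‖ ^ 2 := by
        rw [intervalIntegral.integral_const_mul]
    _ ≤ 3 / ξ * (C' * (3 * ξ) ^ (1 - α)) := by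
        refine mul_le_mul_of_nonneg_left ?_ (by positivity)
        refine hL2 μ hμ _ _ _ (by positivity) hle ?_
        have : Real.exp 1 * ξ ≤ 3 * ξ := mul_le_mul_of_nonneg_right h3.le hξ.le
        have : 0 ≤ Real.exp (-1) * ξ := by positivity
        linarith
    _ = 3 * C' * 3 ^ (1 - α) * ξ ^ (-α) := by
        rw [Real.mul_rpow (by norm_num) hξ.le, Real.rpow_sub hξ, Real.rpow_one, Real.rpow_neg hξ.le]
        field_simp

end Pool.Agent.Q211.DS
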