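import Pool.Agent.Q66.DS.Basic

/-! # Project DS, job GRAM -/

set_option autoImplicit false

open MeasureTheory Set Metric
open Pool.Agent.Q66.DS

namespace Pool.Agent.Q211.DS

theorem exists_unit (z : ℂ) : ∃ θ : ℂ, ‖θ‖ ≤ 1 ∧ θ * z = (‖z‖ : ℂ) := by
  by_cases hz : z = 0
  · exact ⟨0, by simp, by simp [hz]⟩
  · have hn : ‖z‖ ≠ 0 := norm_ne_zero_iff.2 hz
    refine ⟨(starRingEnd ℂ) z / (‖z‖ : ℂ), ?_, ?_⟩
    · rw [norm_div, RCLike.norm_conj, Complex.norm_real, norm_norm, div_self hn]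
    · have h1 : (starRingEnd ℂ) z * z = ((‖z‖ : ℂ)) ^ 2 := by
        rw [mul_comm, Complex.mul_conj, Complex.normSq_eq_norm_sq]
        push_cast
        rfl
      have hn' : (‖z‖ : ℂ) ≠ 0 := by exact_mod_cast hn
      rw [div_mul_eq_mul_div, h1, sq, mul_div_assoc, div_self hn', mul_one]

theorem cs_sq {ν : Measure ℝ} {F G : ℝ → ℂ} (hF : MemLp F 2 ν) (hG : MemLp G 2 ν) :
    ‖∫ x, F x * G x ∂ν‖ ^ 2 ≤ (∫ x, ‖F x‖ ^ 2 ∂ν) * ∫ x, ‖G x‖ ^ 2 ∂ν := by
  have hp : (2 : ℝ).HolderConjugate 2 := Real.HolderConjugate.two_two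
  have h2 : ENNReal.ofReal (2 : ℝ) = 2 := by norm_num
  have h := integral_mul_norm_le_Lp_mul_Lq (μ := ν) (f := F) (g := G) hp
    (by rw [h2]; exact hF) (by rw [h2]; exact hG)
  have h3 : ‖∫ x, F x * G x ∂ν‖ ≤ ∫ x, ‖F x‖ * ‖G x‖ ∂ν := by
    refine (norm_integral_le_integral_norm _).trans (le_of_eq ?_)
    congr 1
    ext x
    rw [norm_mul]
  have h4 : ∀ H : ℝ → ℂ, (∫ x, ‖H x‖ ^ (2 : ℝ) ∂ν) = ∫ x, ‖H x‖ ^ 2 ∂ν := by
    intro H
    congr 1
    ext x
    exact Real.rpow_natCast _ 2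
  rw [h4, h4] at h
  have hF0 : 0 ≤ ∫ x, ‖F x‖ ^ 2 ∂ν := integral_nonneg fun x => by positivity
  have hG0 : 0 ≤ ∫ x, ‖G x‖ ^ 2 ∂ν := integral_nonneg fun x => by positivity
  rw [← Real.sqrt_eq_rpow, ← Real.sqrt_eq_rpow] at h
  calc ‖∫ x, F x * G x ∂ν‖ ^ 2 ≤ (√(∫ x, ‖F x‖ ^ 2 ∂ν) * √(∫ x, ‖G x‖ ^ 2 ∂ν)) ^ 2 :=
        pow_le_pow_left₀ (norm_nonneg _) (h3.trans h) 2
    _ = _ := by rw [mul_pow, Real.sq_sqrt hF0, Real.sq_sqrt hG0]

theorem t_GRAM : S_GRAM := by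
  intro ν J F g hF hg
  choose θ hθ1 hθ2 using fun i : ℤ => exists_unit (∫ x, F x * g i x ∂ν)
  let G : ℝ → ℂ := fun x => ∑ i ∈ J, θ i * g i x
  have hG : MemLp G 2 ν := memLp_finset_sum J fun i hi => (hg i hi).const_mul (θ i)
  have hFg : ∀ i ∈ J, Integrable (fun x => F x * g i x) ν := fun i hi => by
    have := (hF.mul (hg i hi) : MemLp _ 1 ν)
    rw [memLp_one_iff_integrable] at this
    refine this.congr (Filter.Eventually.of_forall fun x => ?_)
    simp [mul_comm]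
  have h1 : ∫ x, F x * G x ∂ν = ((∑ i ∈ J, ‖∫ x, F x * g i x ∂ν‖ : ℝ) : ℂ) := by
    have : ∀ x, F x * G x = ∑ i ∈ J, θ i * (F x * g i x) := by
      intro x
      change F x * ∑ i ∈ J, _ = _
      rw [Finset.mul_sum]
      refine Finset.sum_congr rfl fun i _ => ?_
      ring
    simp_rw [this]
    rw [integral_finset_sum]
    · push_cast
      refine Finset.sum_congr rfl fun i _ => ?_
      rw [integral_const_mul, hθ2]
    · intro i hi
      exact (hFg i hi).const_mul _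
  have h2 := cs_sq hF hG
  rw [h1, Complex.norm_real, Real.norm_eq_abs, sq_abs] at h2
  refine h2.trans ?_
  refine mul_le_mul_of_nonneg_left ?_ (integral_nonneg fun x => by positivity)
  have hgc : ∀ i ∈ J, ∀ j ∈ J, Integrable (fun x => g i x * (starRingEnd ℂ) (g j x)) ν := by
    intro i hi j hj
    have hj' : MemLp (fun x => (starRingEnd ℂ) (g j x)) 2 ν := by
      refine (hg j hj).of_le ?_ (Filter.Eventually.of_forall fun x => ?_)
      · exact Complex.continuous_conj.comp_aestronglyMeasurable (hg j hj).1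
      · rw [RCLike.norm_conj]
    have := ((hg i hi).mul hj' : MemLp _ 1 ν)
    rw [memLp_one_iff_integrable] at this
    refine this.congr (Filter.Eventually.of_forall fun x => ?_)
    simp [mul_comm]
  have h3 : ((∫ x, ‖G x‖ ^ 2 ∂ν : ℝ) : ℂ) =
      ∑ i ∈ J, ∑ j ∈ J, θ i * (starRingEnd ℂ) (θ j) * ∫ x, g i x * (starRingEnd ℂ) (g j x) ∂ν := by
    have e0 : ((∫ x, ‖G x‖ ^ 2 ∂ν : ℝ) : ℂ) = ∫ x, ((‖G x‖ ^ 2 : ℝ) : ℂ) ∂ν := integral_complex_ofReal.symm
    rw [e0]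
    have : ∀ x, ((‖G x‖ ^ 2 : ℝ) : ℂ) =
        ∑ i ∈ J, ∑ j ∈ J, θ i * (starRingEnd ℂ) (θ j) * (g i x * (starRingEnd ℂ) (g j x)) := by
      intro x
      have h4 : ((‖G x‖ ^ 2 : ℝ) : ℂ) = G x * (starRingEnd ℂ) (G x) := by
        rw [Complex.mul_conj, Complex.normSq_eq_norm_sq]
      rw [h4]
      change (∑ i ∈ J, _) * (starRingEnd ℂ) (∑ i ∈ J, _) = _
      rw [map_sum, Finset.sum_mul_sum]
      refine Finset.sum_congr rfl fun i _ => Finset.sum_congr rfl fun j _ => ?_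
      rw [map_mul]
      ring
    refine (integral_congr_ae (Filter.Eventually.of_forall this)).trans ?_
    rw [integral_finset_sum]
    · refine Finset.sum_congr rfl fun i hi => ?_
      rw [integral_finset_sum]
      · refine Finset.sum_congr rfl fun j hj => ?_
        rw [integral_const_mul]
      · intro j hj
        exact (hgc i hi j hj).const_mul _
    · intro i hi
      exact integrable_finset_sum _ fun j hj => (hgc i hi j hj).const_mul _
  have h5 : ∫ x, ‖G x‖ ^ 2 ∂ν = ‖((∫ x, ‖G x‖ ^ 2 ∂ν : ℝ) : ℂ)‖ := by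
    rw [Complex.norm_real, Real.norm_eq_abs, abs_of_nonneg]
    exact integral_nonneg fun x => by positivity
  rw [h5, h3]
  refine (norm_sum_le _ _).trans (Finset.sum_le_sum fun i _ => ?_)
  refine (norm_sum_le _ _).trans (Finset.sum_le_sum fun j _ => ?_)
  rw [norm_mul, norm_mul, RCLike.norm_conj]
  calc ‖θ i‖ * ‖θ j‖ * _ ≤ 1 * 1 * _ := by
        refine mul_le_mul_of_nonneg_right ?_ (norm_nonneg _)
        exact mul_le_mul (hθ1 i) (hθ1 j) (norm_nonneg _) zero_le_one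
    _ = _ := by rw [one_mul, one_mul]

end Pool.Agent.Q211.DS
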