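import Pool.Agent.Q66.DS.Basic

/-! # Project DS, job KRI -/

set_option autoImplicit false

open MeasureTheory Set Metric
open Pool.Agent.Q66.DS

namespace Pool.Agent.Q211.DS

/-- the pointwise dyadic bound -/
theorem kr_dyadic (R z : ℝ) (hR : 0 < R) :
    ∃ k : ℕ, |z| ≤ 2 ^ k / R ∧ kr R z ≤ 8 * R * (1 / 2) ^ k := by
  have hz : 0 ≤ R * |z| := by positivity
  by_cases h0 : R * |z| ≤ 1
  · refine ⟨0, ?_, ?_⟩
    · rw [pow_zero, le_div_iff₀ hR, mul_comm]
      exact h0
    · have := kr_le R z hR.le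
      rw [pow_zero]
      linarith
  · push Not at h0
    have hex : ∃ k : ℕ, R * |z| ≤ 2 ^ k := by
      obtain ⟨n, hn⟩ := pow_unbounded_of_one_lt (R * |z|) (one_lt_two : (1 : ℝ) < 2)
      exact ⟨n, hn.le⟩
    classical
    let k := Nat.find hex
    have hk : R * |z| ≤ 2 ^ k := Nat.find_spec hex
    have hk0 : k ≠ 0 := by
      intro h
      rw [h, pow_zero] at hk
      linarith
    obtain ⟨j, hj⟩ := Nat.exists_eq_succ_of_ne_zero hk0
    have hj1 : 2 ^ j < R * |z| := by
      have := Nat.find_min hex (m := j) (by change j < k; omega)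
      push Not at this
      exact this
    refine ⟨k, ?_, ?_⟩
    · rw [le_div_iff₀ hR, mul_comm]
      exact hk
    · unfold kr
      rw [div_le_iff₀ (by positivity), hj, pow_succ]
      have h2 : (1 / 2 : ℝ) ^ j * 2 ^ j = 1 := by
        rw [← mul_pow]
        norm_num
      have h3 : (1 / 2 : ℝ) ^ j * 2 ^ j ≤ (1 / 2 : ℝ) ^ j * (R * |z|) :=
        mul_le_mul_of_nonneg_left hj1.le (by positivity)
      rw [h2] at h3
      have h4 : 0 ≤ (1 / 2 : ℝ) ^ j := by positivity
      nlinarith [mul_le_mul_of_nonneg_left h3 hR.le, mul_nonneg hR.le h4]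

theorem t_KRI : S_KRI := by
  intro α hα
  have hq0 : (0 : ℝ) < 2 ^ (α - 1) := Real.rpow_pos_of_pos two_pos _
  have hq1 : (2 : ℝ) ^ (α - 1) < 1 := Real.rpow_lt_one_of_one_lt_of_neg one_lt_two (by linarith)
  set q : ℝ := 2 ^ (α - 1) with hq
  refine ⟨8 * (1 - q)⁻¹, by have := inv_pos.2 (sub_pos.2 hq1); linarith, ?_⟩
  intro μ R C0 c hμ hR hC0 hball
  have hkr0 : ∀ x, 0 ≤ kr R (x - c) := fun x => kr_nonneg R _ hR.le
  have hcont : Continuous fun x => kr R (x - c) :=
    (continuous_kr R hR.le).comp (continuous_id.sub continuous_const)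
  rw [integral_eq_lintegral_of_nonneg_ae (Filter.Eventually.of_forall hkr0)
    hcont.aestronglyMeasurable]
  have hS0 : 0 ≤ 8 * (1 - q)⁻¹ * C0 * R ^ (1 - α) := by
    have := inv_pos.2 (sub_pos.2 hq1)
    have := Real.rpow_pos_of_pos hR (1 - α)
    positivity
  refine ENNReal.toReal_le_of_le_ofReal hS0 ?_
  have hpt : ∀ x, ENNReal.ofReal (kr R (x - c)) ≤
      ∑' k : ℕ, (closedBall c (2 ^ k / R)).indicator
        (fun _ => ENNReal.ofReal (8 * R * (1 / 2) ^ k)) x := by
    intro x
    obtain ⟨k, hk1, hk2⟩ := kr_dyadic R (x - c) hR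
    refine le_trans ?_ (ENNReal.le_tsum k)
    rw [indicator_of_mem]
    · exact ENNReal.ofReal_le_ofReal hk2
    · rw [mem_closedBall, Real.dist_eq]
      exact hk1
  calc ∫⁻ x, ENNReal.ofReal (kr R (x - c)) ∂μ
      ≤ ∫⁻ x, ∑' k : ℕ, (closedBall c (2 ^ k / R)).indicator
        (fun _ => ENNReal.ofReal (8 * R * (1 / 2) ^ k)) x ∂μ := lintegral_mono hpt
    _ = ∑' k : ℕ, ∫⁻ x, (closedBall c (2 ^ k / R)).indicator
        (fun _ => ENNReal.ofReal (8 * R * (1 / 2) ^ k)) x ∂μ := by
        refine lintegral_tsum fun k => ?_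
        exact (measurable_const.indicator measurableSet_closedBall).aemeasurable
    _ = ∑' k : ℕ, ENNReal.ofReal (8 * R * (1 / 2) ^ k) * μ (closedBall c (2 ^ k / R)) := by
        congr 1
        ext k
        rw [lintegral_indicator measurableSet_closedBall, setLIntegral_const]
    _ ≤ ∑' k : ℕ, ENNReal.ofReal (8 * C0 * R ^ (1 - α) * q ^ k) := by
        refine ENNReal.tsum_le_tsum fun k => ?_
        have h1 : μ (closedBall c (2 ^ k / R)) ≤ ENNReal.ofReal (C0 * (2 ^ k / R) ^ α) := by
          refine hball _ ?_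
          have : (1 : ℝ) ≤ 2 ^ k := one_le_pow₀ one_le_two
          exact div_le_div_of_nonneg_right this hR.le
        refine (mul_le_mul_right h1 _).trans (le_of_eq ?_)
        rw [← ENNReal.ofReal_mul (by positivity)]
        congr 1
        have h2 : ((2 : ℝ) ^ k / R) ^ α = (2 ^ α) ^ k * (R ^ α)⁻¹ := by
          rw [Real.div_rpow (by positivity) hR.le, div_eq_mul_inv]
          congr 1
          rw [← Real.rpow_natCast, ← Real.rpow_natCast, ← Real.rpow_mul two_pos.le,
            ← Real.rpow_mul two_pos.le, mul_comm]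
        have h3 : R ^ (1 - α) = R * (R ^ α)⁻¹ := by
          rw [Real.rpow_sub hR, Real.rpow_one, div_eq_mul_inv]
        have h4 : q = 2 ^ α * (1 / 2) := by
          rw [hq, Real.rpow_sub two_pos, Real.rpow_one, div_eq_mul_one_div]
        rw [h2, h3, h4, mul_pow]
        ring
    _ = ENNReal.ofReal (8 * (1 - q)⁻¹ * C0 * R ^ (1 - α)) := by
        have hs : Summable fun k : ℕ => 8 * C0 * R ^ (1 - α) * q ^ k :=
          (summable_geometric_of_lt_one hq0.le hq1).mul_left _
        rw [← ENNReal.ofReal_tsum_of_nonneg _ hs, tsum_mul_left,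
          tsum_geometric_of_lt_one hq0.le hq1]
        · congr 1
          ring
        · intro k
          have := Real.rpow_pos_of_pos hR (1 - α)
          positivity

end Pool.Agent.Q211.DS
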