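import Pool.Agent.Q66.DS.Basic

/-! # Project DS, job L2 -/

set_option autoImplicit false

open MeasureTheory Set Metric
open Pool.Agent.Q66.DS

namespace Pool.Agent.Q211.DS

theorem conj_ch (μ : Measure ℝ) (ξ : ℝ) : (starRingEnd ℂ) (ch μ ξ) = ∫ a, e (-(ξ * a)) ∂μ := by
  unfold ch
  rw [← integral_conj]
  congr 1
  ext a
  exact conj_e _

theorem sq_ch (μ : Measure ℝ) [IsProbabilityMeasure μ] (ξ : ℝ) :
    ((‖ch μ ξ‖ ^ 2 : ℝ) : ℂ) = ∫ p : ℝ × ℝ, e ((p.1 - p.2) * ξ) ∂(μ.prod μ) := by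
  have h4 : ((‖ch μ ξ‖ ^ 2 : ℝ) : ℂ) = ch μ ξ * (starRingEnd ℂ) (ch μ ξ) := by
    rw [Complex.mul_conj, Complex.normSq_eq_norm_sq]
  rw [h4, conj_ch]
  unfold ch
  rw [← integral_prod_mul]
  congr 1
  ext p
  rw [← e_add]
  congr 1
  ring

theorem t_L2 (h1 : S_OSC) (h2 : S_KRI) : S_L2 := by
  intro α C L hα hC
  obtain ⟨C1, hC1, hkri⟩ := h2 α hα
  refine ⟨C1 * C, mul_pos hC1 hC, ?_⟩
  intro μ hμ a b R hR hab hbR
  obtain ⟨hprob, hsupp, hfr⟩ := hμ
  have hR1 : 0 < R ^ (1 - α) := Real.rpow_pos_of_pos hR _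
  have e0 : ((∫ ξ in a..b, ‖ch μ ξ‖ ^ 2 : ℝ) : ℂ) = ∫ ξ in a..b, ((‖ch μ ξ‖ ^ 2 : ℝ) : ℂ) :=
    (intervalIntegral.integral_ofReal).symm
  have e1 : ∫ ξ in a..b, ((‖ch μ ξ‖ ^ 2 : ℝ) : ℂ) =
      ∫ p : ℝ × ℝ, (∫ ξ in a..b, e ((p.1 - p.2) * ξ)) ∂(μ.prod μ) := by
    simp_rw [sq_ch]
    rw [intervalIntegral.integral_of_le hab]
    rw [integral_integral_swap]
    · congr 1
      ext p
      rw [intervalIntegral.integral_of_le hab]
    · have : IsFiniteMeasure (volume.restrict (Ioc a b)) := ⟨by simp⟩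
      refine Integrable.mono' (integrable_const (1 : ℝ)) ?_ (Filter.Eventually.of_forall fun q => ?_)
      · refine Continuous.aestronglyMeasurable ?_
        exact continuous_e.comp (by fun_prop)
      · change ‖e _‖ ≤ 1
        rw [norm_e]
  have hkint : ∀ c : ℝ, Integrable (fun x => kr R (x - c)) μ := by
    intro c
    refine Integrable.mono' (integrable_const (4 * R)) ?_ (Filter.Eventually.of_forall fun x => ?_)
    · exact ((continuous_kr R hR.le).comp (continuous_id.sub continuous_const)).aestronglyMeasurable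
    · rw [Real.norm_eq_abs, abs_of_nonneg (kr_nonneg R _ hR.le)]
      exact kr_le R _ hR.le
  have hkint2 : Integrable (fun p : ℝ × ℝ => kr R (p.1 - p.2)) (μ.prod μ) := by
    refine Integrable.mono' (integrable_const (4 * R)) ?_ (Filter.Eventually.of_forall fun x => ?_)
    · exact ((continuous_kr R hR.le).comp (continuous_fst.sub continuous_snd)).aestronglyMeasurable
    · rw [Real.norm_eq_abs, abs_of_nonneg (kr_nonneg R _ hR.le)]
      exact kr_le R _ hR.le
  have e2 : ∫ ξ in a..b, ‖ch μ ξ‖ ^ 2 = ‖((∫ ξ in a..b, ‖ch μ ξ‖ ^ 2 : ℝ) : ℂ)‖ := by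
    rw [Complex.norm_real, Real.norm_eq_abs, abs_of_nonneg]
    exact intervalIntegral.integral_nonneg hab fun x _ => by positivity
  rw [e2, e0, e1]
  refine (norm_integral_le_integral_norm _).trans ?_
  calc ∫ p : ℝ × ℝ, ‖∫ ξ in a..b, e ((p.1 - p.2) * ξ)‖ ∂(μ.prod μ)
      ≤ ∫ p : ℝ × ℝ, kr R (p.1 - p.2) ∂(μ.prod μ) := by
        refine integral_mono_of_nonneg (Filter.Eventually.of_forall fun p => norm_nonneg _) hkint2
          (Filter.Eventually.of_forall fun p => ?_)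
        exact h1 R a b (p.1 - p.2) hR hab hbR
    _ = ∫ x', ∫ x, kr R (x - x') ∂μ ∂μ := by
        rw [integral_prod_symm _ hkint2]
    _ ≤ ∫ x' : ℝ, C1 * C * R ^ (1 - α) ∂μ := by
        refine integral_mono_of_nonneg (Filter.Eventually.of_forall fun x' =>
          integral_nonneg fun x => kr_nonneg R _ hR.le) (integrable_const _)
          (Filter.Eventually.of_forall fun x' => ?_)
        refine hkri μ R C x' inferInstance hR hC.le fun r hr => ?_
        refine hfr x' r (lt_of_lt_of_le ?_ hr)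
        positivity
    _ = C1 * C * R ^ (1 - α) := by simp

end Pool.Agent.Q211.DS
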